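import Pool.Agent.W114.PQ.Stm

/-!
# Project PQ: no large exact prime divisor
-/

set_option autoImplicit false

namespace Pool.Agent.W475.PQ

open Finset Filter Topology
open Pool.Agent.H951R4.OD (ch PI Ex)
open Pool.Agent.W114.PQ

theorem lim_h (C : ℝ) : Tendsto (fun L : ℝ => C * L⁻¹ + L ^ 7 * Real.exp (-(L / 2))) atTop
    (𝓝 0) := by
  have h1 : Tendsto (fun L : ℝ => C * L⁻¹) atTop (𝓝 0) := by
    have := tendsto_inv_atTop_zero (𝕜 := ℝ) |>.const_mul C
    rwa [mul_zero] at this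
  have h2 : Tendsto (fun L : ℝ => L ^ 7 * Real.exp (-(L / 2))) atTop (𝓝 0) := by
    have h3 := Real.tendsto_pow_mul_exp_neg_atTop_nhds_zero 7
    have h4 : Tendsto (fun L : ℝ => L / 2) atTop atTop :=
      tendsto_id.atTop_div_const (by norm_num)
    have h5 := (h3.comp h4).const_mul ((2 : ℝ) ^ 7)
    rw [mul_zero] at h5
    refine h5.congr fun L => ?_
    simp only [Function.comp_apply]
    rw [div_pow]
    ring
  simpa using h1.add h2

theorem ev_k (k : ℕ) : ∀ᶠ L : ℝ in atTop, (k : ℝ) * L ^ (3 / 4 : ℝ) ≤ L / 2 := by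
  have h1 : Tendsto (fun L : ℝ => L ^ (1 / 4 : ℝ)) atTop atTop :=
    tendsto_rpow_atTop (by norm_num)
  filter_upwards [h1.eventually_ge_atTop (2 * (k : ℝ)), eventually_gt_atTop 0] with L hL hL0
  have h2 : L = L ^ (1 / 4 : ℝ) * L ^ (3 / 4 : ℝ) := by
    rw [← Real.rpow_add hL0]; norm_num
  have h3 : 2 * (k : ℝ) * L ^ (3 / 4 : ℝ) ≤ L := by
    calc 2 * (k : ℝ) * L ^ (3 / 4 : ℝ) ≤ L ^ (1 / 4 : ℝ) * L ^ (3 / 4 : ℝ) :=
          mul_le_mul_of_nonneg_right hL (by positivity)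
      _ = L := h2.symm
  linarith

theorem e (gs : S_GS) (gd : S_GD) : S_E := by
  classical
  intro c0 hc0 k
  obtain ⟨C, hC1, hC⟩ := gs c0 hc0
  have hlog : Tendsto (fun X : ℕ => Real.log (X : ℝ)) atTop atTop :=
    Real.tendsto_log_atTop.comp tendsto_natCast_atTop_atTop
  have hlim : Tendsto (fun X : ℕ => C * (Real.log (X : ℝ))⁻¹ +
      (Real.log (X : ℝ)) ^ 7 * Real.exp (-(Real.log (X : ℝ) / 2))) atTop (𝓝 0) :=
    (lim_h C).comp hlog
  refine squeeze_zero' ?_ ?_ hlim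
  · filter_upwards with X
    have h1 : 0 ≤ Real.log (X : ℝ) := Real.log_natCast_nonneg X
    positivity
  · filter_upwards [hlog.eventually (ev_k k), hlog.eventually_ge_atTop 1,
      eventually_ge_atTop 1] with X hXk hL1 hX1
    set L : ℝ := Real.log (X : ℝ) with hL
    have hX0 : (0 : ℝ) < X := by exact_mod_cast hX1
    have hL0 : 0 < L := by linarith
    set w := wX X with hw
    have hwe : (w : ℝ) ≤ Real.exp (L ^ (3 / 4 : ℝ)) := by
      rw [hw]; unfold wX
      exact Nat.floor_le (by positivity)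
    have hw1 : 1 ≤ w := by
      rw [hw]; unfold wX
      apply Nat.le_floor
      rw [Nat.cast_one]
      exact Real.one_le_exp (by positivity)
    set S : Set ℕ := {n : ℕ | 1 ≤ n ∧ n ≤ X ∧ (EP c0 w n).card < k ∧
      ∀ r : ℕ, w < r → ¬ Ex c0 n r} with hS
    have hSfin : S.Finite := (Set.finite_Iic X).subset fun n hn => hn.2.1
    -- the cofactors
    have hgd : ∀ n : ℕ, ∃ g : ℕ, 1 ≤ n → 1 ≤ g ∧ n = g * ∏ p ∈ EP c0 n n, p ∧
        (∀ p : ℕ, ¬ Ex c0 g p) := by
      intro n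
      by_cases hn : 1 ≤ n
      · obtain ⟨g, h1, h2, h3, _⟩ := gd c0 n hn
        exact ⟨g, fun _ => ⟨h1, h2, h3⟩⟩
      · exact ⟨0, fun h => absurd h hn⟩
    choose g hg using hgd
    have hprod : ∀ n ∈ S, ((∏ p ∈ EP c0 n n, p : ℕ) : ℝ) ≤ Real.exp (k * L ^ (3 / 4 : ℝ)) := by
      rintro n ⟨h1n, hnX, hcard, hno⟩
      have hsub : EP c0 n n ⊆ EP c0 w n := by
        intro p hp
        unfold EP at hp ⊢
        rw [Finset.mem_filter, Finset.mem_Icc] at hp ⊢
        refine ⟨⟨hp.1.1, ?_⟩, hp.2⟩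
        by_contra hlt
        exact hno p (by omega) hp.2
      have h1 : ∏ p ∈ EP c0 n n, p ≤ w ^ (EP c0 n n).card := by
        apply Finset.prod_le_pow_card
        intro p hp
        have := hsub hp
        unfold EP at this
        rw [Finset.mem_filter, Finset.mem_Icc] at this
        exact this.1.2
      have h2 : (EP c0 n n).card ≤ k := (Finset.card_le_card hsub).trans hcard.le
      have h3 : ∏ p ∈ EP c0 n n, p ≤ w ^ k := h1.trans (Nat.pow_le_pow_right hw1 h2)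
      calc ((∏ p ∈ EP c0 n n, p : ℕ) : ℝ) ≤ ((w ^ k : ℕ) : ℝ) := by exact_mod_cast h3
        _ = (w : ℝ) ^ k := by push_cast; rfl
        _ ≤ (Real.exp (L ^ (3 / 4 : ℝ))) ^ k := pow_le_pow_left₀ (by positivity) hwe k
        _ = Real.exp (k * L ^ (3 / 4 : ℝ)) := by rw [← Real.exp_nat_mul]
    set S1 : Set ℕ := {n ∈ S | L ^ 6 < (g n : ℝ)} with hS1
    set S2 : Set ℕ := {n ∈ S | (g n : ℝ) ≤ L ^ 6} with hS2
    have hSS : S ⊆ S1 ∪ S2 := by
      intro n hn
      rcases lt_or_ge (L ^ 6) (g n : ℝ) with h | h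
      · exact Or.inl ⟨hn, h⟩
      · exact Or.inr ⟨hn, h⟩
    have hS1fin : S1.Finite := hSfin.subset fun n hn => hn.1
    have hS2fin : S2.Finite := hSfin.subset fun n hn => hn.1
    -- S2
    have hc2 : (S2.ncard : ℝ) ≤ L ^ 6 * Real.exp (k * L ^ (3 / 4 : ℝ)) := by
      have hsub : S2 ⊆ ((Finset.Icc 1 ⌊L ^ 6 * Real.exp (k * L ^ (3 / 4 : ℝ))⌋₊ : Finset ℕ) :
          Set ℕ) := by
        rintro n ⟨hn, hgn⟩
        rw [Finset.mem_coe, Finset.mem_Icc]
        refine ⟨hn.1, ?_⟩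
        apply Nat.le_floor
        have h1 := (hg n hn.1).2.1
        have h2 : (n : ℝ) = (g n : ℝ) * ((∏ p ∈ EP c0 n n, p : ℕ) : ℝ) := by exact_mod_cast h1
        rw [h2]
        exact mul_le_mul hgn (hprod n hn) (by positivity) (by positivity)
      have h1 := Set.ncard_le_ncard hsub (Finset.finite_toSet _)
      rw [Set.ncard_coe_finset, Nat.card_Icc, Nat.add_sub_cancel] at h1
      calc (S2.ncard : ℝ) ≤ (⌊L ^ 6 * Real.exp (k * L ^ (3 / 4 : ℝ))⌋₊ : ℝ) := by
            exact_mod_cast h1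
        _ ≤ _ := Nat.floor_le (by positivity)
    -- S1
    set GG : Finset ℕ := (Finset.Icc 1 X).filter
      (fun g => L ^ 6 ≤ (g : ℝ) ∧ ∀ p : ℕ, ¬ Ex c0 g p) with hGG
    have hc1 : (S1.ncard : ℝ) ≤ X * (C * (L ^ 6) ^ (-(1 / 3) : ℝ)) := by
      have hsub : S1 ⊆ ((GG.biUnion (fun g => (Finset.Icc 1 (X / g)).image (fun s => g * s)) :
          Finset ℕ) : Set ℕ) := by
        rintro n ⟨hn, hgn⟩
        obtain ⟨h1, h2, h3⟩ := hg n hn.1
        rw [Finset.mem_coe, Finset.mem_biUnion]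
        have hs0 : 1 ≤ ∏ p ∈ EP c0 n n, p := by
          by_contra h0
          have h00 : ∏ p ∈ EP c0 n n, p = 0 := by omega
          rw [h00, mul_zero] at h2
          have := hn.1
          omega
        refine ⟨g n, ?_, ?_⟩
        · rw [hGG, Finset.mem_filter, Finset.mem_Icc]
          refine ⟨⟨h1, ?_⟩, hgn.le, h3⟩
          calc g n = g n * 1 := (mul_one _).symm
            _ ≤ g n * ∏ p ∈ EP c0 n n, p := Nat.mul_le_mul_left _ hs0
            _ = n := h2.symm
            _ ≤ X := hn.2.1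
        · rw [Finset.mem_image]
          refine ⟨∏ p ∈ EP c0 n n, p, ?_, h2.symm⟩
          rw [Finset.mem_Icc]
          refine ⟨hs0, ?_⟩
          rw [Nat.le_div_iff_mul_le (by omega), mul_comm, ← h2]
          exact hn.2.1
      have h1 := Set.ncard_le_ncard hsub (Finset.finite_toSet _)
      rw [Set.ncard_coe_finset] at h1
      have h2 : (GG.biUnion (fun g => (Finset.Icc 1 (X / g)).image (fun s => g * s))).card ≤
          ∑ g ∈ GG, X / g := by
        refine Finset.card_biUnion_le.trans (Finset.sum_le_sum fun g _ => ?_)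
        refine Finset.card_image_le.trans ?_
        rw [Nat.card_Icc, Nat.add_sub_cancel]
      have h3 : ((∑ g ∈ GG, X / g : ℕ) : ℝ) ≤ X * ∑ g ∈ GG, (1 : ℝ) / g := by
        rw [Finset.mul_sum]
        push_cast
        apply Finset.sum_le_sum
        intro g _
        rw [mul_one_div]
        exact Nat.cast_div_le
      have h4 := hC (L ^ 6) GG (one_le_pow₀ hL1) (by
        intro g hg
        rw [hGG, Finset.mem_filter] at hg
        exact hg.2)
      calc (S1.ncard : ℝ) ≤ ((∑ g ∈ GG, X / g : ℕ) : ℝ) := by exact_mod_cast h1.trans h2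
        _ ≤ X * ∑ g ∈ GG, (1 : ℝ) / g := h3
        _ ≤ X * (C * (L ^ 6) ^ (-(1 / 3) : ℝ)) := mul_le_mul_of_nonneg_left h4 hX0.le
    have hcard : (S.ncard : ℝ) ≤ X * (C * (L ^ 6) ^ (-(1 / 3) : ℝ)) +
        L ^ 6 * Real.exp (k * L ^ (3 / 4 : ℝ)) := by
      have h1 : S.ncard ≤ S1.ncard + S2.ncard :=
        (Set.ncard_le_ncard hSS (hS1fin.union hS2fin)).trans (Set.ncard_union_le _ _)
      have h2 : (S.ncard : ℝ) ≤ S1.ncard + S2.ncard := by exact_mod_cast h1
      linarith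
    have hpow : (L ^ 6) ^ (-(1 / 3) : ℝ) = (L ^ 2)⁻¹ := by
      rw [← Real.rpow_natCast, ← Real.rpow_mul hL0.le, ← Real.rpow_natCast, ← Real.rpow_neg hL0.le]
      norm_num
    have hXe : (X : ℝ) = Real.exp L := by rw [hL, Real.exp_log hX0]
    calc (S.ncard : ℝ) * L / X ≤ (X * (C * (L ^ 6) ^ (-(1 / 3) : ℝ)) +
          L ^ 6 * Real.exp (k * L ^ (3 / 4 : ℝ))) * L / X := by
          apply div_le_div_of_nonneg_right _ hX0.le
          exact mul_le_mul_of_nonneg_right hcard hL0.le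
      _ = C * L⁻¹ + L ^ 7 * (Real.exp (k * L ^ (3 / 4 : ℝ)) / X) := by
          rw [hpow]
          field_simp
      _ ≤ C * L⁻¹ + L ^ 7 * Real.exp (-(L / 2)) := by
          have h1 : Real.exp (k * L ^ (3 / 4 : ℝ)) / X ≤ Real.exp (-(L / 2)) := by
            rw [hXe, ← Real.exp_sub]
            apply Real.exp_le_exp.2
            linarith
          have h2 := mul_le_mul_of_nonneg_left h1 (by positivity : (0 : ℝ) ≤ L ^ 7)
          linarith

end Pool.Agent.W475.PQ
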