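import Pool.Agent.W114.PQ.Stm

/-!
# Project PQ: the main theorem from the parts
-/

set_option autoImplicit false

namespace Pool.Agent.W475.PQ

open Finset Filter Topology
open Pool.Agent.H951R4.OD (ch PI Ex)
open Pool.Agent.W114.PQ

theorem exists_k (D : Dat) (h : 1 < D.τ + D.β / 2) : ∃ k : ℕ, 1 ≤ k ∧ 1 < Dk D k := by
  have h1 : Tendsto (fun k : ℕ => D.κ / 2 ^ k) atTop (𝓝 0) := by
    have h2 : Tendsto (fun k : ℕ => ((1 : ℝ) / 2) ^ k) atTop (𝓝 0) :=
      tendsto_pow_atTop_nhds_zero_of_lt_one (by norm_num) (by norm_num)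
    have h3 := h2.const_mul D.κ
    rw [mul_zero] at h3
    refine h3.congr fun k => ?_
    rw [one_div, inv_pow, ← div_eq_mul_inv]
  have h4 : ∀ᶠ k : ℕ in atTop, D.κ / 2 ^ k < D.τ + D.β / 2 - 1 :=
    h1.eventually (gt_mem_nhds (by linarith))
  obtain ⟨k, hk, hk1⟩ := (h4.and (eventually_ge_atTop 1)).exists
  refine ⟨k, hk1, ?_⟩
  unfold Dk
  linarith

theorem main (a : S_A) (b : S_B) (c1 : S_C1) (c2 : S_C2) (e : S_E) : S_MAIN := by
  classical
  intro D hD hτ
  obtain ⟨k, hk1, hk⟩ := exists_k D hτ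
  have hA := a D hD k hk1 hk
  have hB := b D hD k
  have hC1 := c1 D hD k
  have hC2 := c2 D hD
  have hE := e D.c0 hD.c0_pos k
  have hsum := (((hA.add hB).add hC1).add hC2).add hE
  simp only [add_zero] at hsum
  refine squeeze_zero ?_ ?_ hsum
  · intro X
    have h1 : 0 ≤ Real.log (X : ℝ) := Real.log_natCast_nonneg X
    positivity
  · intro X
    have h1 : 0 ≤ Real.log (X : ℝ) := Real.log_natCast_nonneg X
    rw [← add_div, ← add_mul, ← add_div, ← add_mul, ← add_div, ← add_mul, ← add_div, ← add_mul]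
    apply div_le_div_of_nonneg_right _ (by positivity)
    apply mul_le_mul_of_nonneg_right _ h1
    set SA : Set ℕ := {n : ℕ | 1 ≤ n ∧ n ≤ X ∧ Pass D n ∧ k ≤ (EP D.c0 (wX X) n).card} with hSA
    set SB : Set ℕ := {n : ℕ | 1 ≤ n ∧ n ≤ X ∧ Pass D n ∧ (EP D.c0 (wX X) n).card < k ∧
      ∃ r r' : ℕ, wX X < r ∧ r < r' ∧ Ex D.c0 n r ∧ Ex D.c0 n r'} with hSB
    set SC : Set ℕ := {n : ℕ | 1 ≤ n ∧ n ≤ X ∧ Pass D n ∧ (EP D.c0 (wX X) n).card < k ∧
      (EP D.c0 (wX X) n).Nonempty ∧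
      ∃ r : ℕ, wX X < r ∧ Ex D.c0 n r ∧ ∀ r' : ℕ, wX X < r' → Ex D.c0 n r' → r' = r} with hSC
    set SD : Set ℕ := {n : ℕ | 1 ≤ n ∧ n ≤ X ∧ Pass D n ∧ ¬ n.Prime ∧
      ∃ r : ℕ, Ex D.c0 n r ∧ ∀ r' : ℕ, Ex D.c0 n r' → r' = r} with hSD
    set SE : Set ℕ := {n : ℕ | 1 ≤ n ∧ n ≤ X ∧ (EP D.c0 (wX X) n).card < k ∧
      ∀ r : ℕ, wX X < r → ¬ Ex D.c0 n r} with hSE
    have hfin : ∀ S : Set ℕ, (∀ n ∈ S, n ≤ X) → S.Finite := fun S hS =>
      (Set.finite_Iic X).subset hS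
    have fA : SA.Finite := hfin _ fun n hn => hn.2.1
    have fB : SB.Finite := hfin _ fun n hn => hn.2.1
    have fC : SC.Finite := hfin _ fun n hn => hn.2.1
    have fD : SD.Finite := hfin _ fun n hn => hn.2.1
    have fE : SE.Finite := hfin _ fun n hn => hn.2.1
    have hsub : {n : ℕ | 1 ≤ n ∧ n ≤ X ∧ Pass D n ∧ ¬ n.Prime} ⊆
        (((SA ∪ SB) ∪ SC) ∪ SD) ∪ SE := by
      rintro n ⟨h1n, hnX, hP, hnp⟩
      by_cases hcard : k ≤ (EP D.c0 (wX X) n).card
      · exact Or.inl (Or.inl (Or.inl (Or.inl ⟨h1n, hnX, hP, hcard⟩)))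
      · have hcard' : (EP D.c0 (wX X) n).card < k := by omega
        by_cases hex : ∃ r : ℕ, wX X < r ∧ Ex D.c0 n r
        · obtain ⟨r, hr, hrE⟩ := hex
          by_cases huniq : ∀ r' : ℕ, wX X < r' → Ex D.c0 n r' → r' = r
          · by_cases hne : (EP D.c0 (wX X) n).Nonempty
            · exact Or.inl (Or.inl (Or.inr ⟨h1n, hnX, hP, hcard', hne, r, hr, hrE, huniq⟩))
            · refine Or.inl (Or.inr ⟨h1n, hnX, hP, hnp, r, hrE, ?_⟩)
              intro r' hr'
              apply huniq r' _ hr'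
              by_contra hle
              apply hne
              refine ⟨r', ?_⟩
              unfold EP
              rw [Finset.mem_filter, Finset.mem_Icc]
              exact ⟨⟨hr'.1.one_lt.le, by omega⟩, hr'⟩
          · push Not at huniq
            obtain ⟨r', hr', hr'E, hne⟩ := huniq
            rcases lt_or_gt_of_ne hne with hlt | hgt
            · exact Or.inl (Or.inl (Or.inl (Or.inr
                ⟨h1n, hnX, hP, hcard', r', r, hr', hlt, hr'E, hrE⟩)))
            · exact Or.inl (Or.inl (Or.inl (Or.inr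
                ⟨h1n, hnX, hP, hcard', r, r', hr, hgt, hrE, hr'E⟩)))
        · push Not at hex
          exact Or.inr ⟨h1n, hnX, hcard', hex⟩
    have hle : {n : ℕ | 1 ≤ n ∧ n ≤ X ∧ Pass D n ∧ ¬ n.Prime}.ncard ≤
        SA.ncard + SB.ncard + SC.ncard + SD.ncard + SE.ncard := by
      refine (Set.ncard_le_ncard hsub ((((fA.union fB).union fC).union fD).union fE)).trans ?_
      refine (Set.ncard_union_le _ _).trans (Nat.add_le_add_right ?_ _)
      refine (Set.ncard_union_le _ _).trans (Nat.add_le_add_right ?_ _)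
      refine (Set.ncard_union_le _ _).trans (Nat.add_le_add_right ?_ _)
      exact Set.ncard_union_le _ _
    exact_mod_cast hle

end Pool.Agent.W475.PQ
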